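import Pool.Agent.L0h56.HS.Stm
import Pool.Agent.H315R3.ETC.Basic

/-! Module EQO of the project HS: value groups of the same order. -/

set_option autoImplicit false
set_option linter.unusedSectionVars false

namespace Pool.Agent.L0h41.HS

open Pool.Agent.H315R3.ETC Pool.Agent.L0h56.HS Finset
open scoped Classical

lemma card_sup_inf {G : Type} [CommGroup G] (H K : Subgroup G) :
    Nat.card (H ⊔ K : Subgroup G) * Nat.card (H ⊓ K : Subgroup G) = Nat.card H * Nat.card K := by
  have h1 : (⊥ : Subgroup G).relIndex K * K.relIndex (H ⊔ K) = (⊥ : Subgroup G).relIndex (H ⊔ K) :=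
    Subgroup.relIndex_mul_relIndex _ _ _ bot_le le_sup_right
  have h2 : (⊥ : Subgroup G).relIndex (H ⊓ K) * (H ⊓ K).relIndex H = (⊥ : Subgroup G).relIndex H :=
    Subgroup.relIndex_mul_relIndex _ _ _ bot_le inf_le_left
  rw [Subgroup.relIndex_bot_left, Subgroup.relIndex_bot_left, Subgroup.relIndex_sup_right] at h1
  rw [Subgroup.relIndex_bot_left, Subgroup.relIndex_bot_left, Subgroup.inf_relIndex_left] at h2
  rw [← h1, ← h2]
  ring

section

variable {S : QData} (h : IsQuat S)

/-- the values of `a` are values of `c` -/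
def EE (S : QData) (a c : S.G) : Prop := ∀ x, ∃ y, S.q a x = S.q c y

include h in
lemma sup_iff (a c x : S.G) : x ∈ D h a ⊔ D h (a * c) ↔ ∃ y, S.q a x = S.q c y := by
  rw [Subgroup.mem_sup]
  constructor
  · rintro ⟨v, hv, z, hz, rfl⟩
    have hv' : S.q a v = S.zero := hv
    have hz' : S.q (a * c) z = S.zero := hz
    refine ⟨z, ?_⟩
    rw [q_shift h z hv', h.qs2 a z, h.qs2 c z, h.qs3, h.qs2]
    exact hz'
  · rintro ⟨y, hy⟩
    obtain ⟨z, h1, h2⟩ := h.qs4 a x c y hy
    have h3 : S.q z a = S.q z c := by rw [h.qs2 z a, h.qs2 z c, ← h1, ← h2, hy]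
    have h4 : S.q (a * c) z = S.zero := by
      rw [h.qs2]
      exact (h.qs3 _ _ _).1 h3
    have h5 : S.q a (x * z) = S.zero := (h.qs3 _ _ _).1 h1
    exact ⟨x * z, h5, z, h4, mul_cancel h x z⟩

include h in
lemma inf_mul (a c : S.G) : D h a ⊓ D h (a * c) = D h a ⊓ D h c := by
  ext y
  rw [Subgroup.mem_inf, Subgroup.mem_inf]
  have key : S.q a y = S.zero → (S.q (a * c) y = S.zero ↔ S.q c y = S.zero) := by
    intro hy
    rw [h.qs2 (a * c) y, ← h.qs3, h.qs2 y a, hy, h.qs2 y c]
    exact eq_comm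
  constructor
  · rintro ⟨h1, h2⟩
    exact ⟨h1, (key h1).1 h2⟩
  · rintro ⟨h1, h2⟩
    exact ⟨h1, (key h1).2 h2⟩

variable [Finite S.G] {N : ℕ} (hN : ∀ a : S.G, a ≠ 1 → {b : S.G | S.q a b = S.zero}.ncard = N)

include h hN in
lemma card_D (a : S.G) (ha : a ≠ 1) : Nat.card (D h a) = N := by
  rw [← hN a ha]
  rfl

include h in
lemma mul_ne (a c : S.G) (hac : a ≠ c) : a * c ≠ 1 := fun e => hac (eq_of_mul h a c e)

include hN in
lemma P0 (a c : S.G) (ha : a ≠ 1) (hac : a ≠ c) :
    Nat.card (D h a ⊔ D h (a * c) : Subgroup S.G) * Nat.card (D h a ⊓ D h c : Subgroup S.G) = N * N := by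
  rw [← inf_mul h a c, card_sup_inf, card_D h hN a ha, card_D h hN _ (mul_ne h a c hac)]

include hN in
lemma P1 (a c : S.G) (ha : a ≠ 1) (hac : a ≠ c) (he : EE S a c) :
    Nat.card S.G * Nat.card (D h a ⊓ D h c : Subgroup S.G) = N * N := by
  have h1 : D h a ⊔ D h (a * c) = ⊤ := by
    rw [eq_top_iff]
    intro x _
    exact (sup_iff h a c x).2 (he x)
  rw [← P0 h hN a c ha hac, h1, Subgroup.card_top]

include hN in
lemma P2 (a c : S.G) (ha : a ≠ 1) (hac : a ≠ c) (he : ¬ EE S a c) :
    2 * (N * N) ≤ Nat.card S.G * Nat.card (D h a ⊓ D h c : Subgroup S.G) := by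
  rw [← P0 h hN a c ha hac]
  have h1 : D h a ⊔ D h (a * c) ≠ ⊤ := by
    intro htop
    apply he
    intro x
    rw [← sup_iff h a c x, htop]
    exact Subgroup.mem_top x
  obtain ⟨m, hm⟩ := Subgroup.card_subgroup_dvd_card (D h a ⊔ D h (a * c))
  have hpos : 0 < Nat.card S.G := Nat.card_pos
  have hm2 : 2 ≤ m := by
    by_contra hcon
    push Not at hcon
    interval_cases m
    · omega
    · rw [mul_one] at hm
      exact h1 (Subgroup.eq_top_of_card_eq _ hm.symm)
  rw [hm]
  calc 2 * (Nat.card (D h a ⊔ D h (a * c) : Subgroup S.G) * Nat.card (D h a ⊓ D h c : Subgroup S.G))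
      ≤ m * (Nat.card (D h a ⊔ D h (a * c) : Subgroup S.G) * Nat.card (D h a ⊓ D h c : Subgroup S.G)) :=
        Nat.mul_le_mul_right _ hm2
    _ = _ := by ring

include h hN in
lemma P3 (hN1 : 1 ≤ N) (a c : S.G) (ha : a ≠ 1) (hac : a ≠ c)
    (hw : Nat.card S.G * Nat.card (D h a ⊓ D h c : Subgroup S.G) = N * N) : EE S a c := by
  by_contra he
  have h1 := P2 h hN a c ha hac he
  rw [hw] at h1
  have : 1 ≤ N * N := Nat.one_le_iff_ne_zero.2 (by positivity)
  omega

include h hN in
lemma EE_symm (hN1 : 1 ≤ N) (a c : S.G) (ha : a ≠ 1) (hc : c ≠ 1) (he : EE S a c) : EE S c a := by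
  by_cases hac : a = c
  · rw [← hac] at he ⊢
    exact he
  · apply P3 h hN hN1 c a hc (Ne.symm hac)
    rw [inf_comm]
    exact P1 h hN a c ha hac he

lemma EE_trans (a b c : S.G) (h1 : EE S a b) (h2 : EE S b c) : EE S a c := by
  intro x
  obtain ⟨y, hy⟩ := h1 x
  obtain ⟨z, hz⟩ := h2 y
  exact ⟨z, hy.trans hz⟩

include h hN in
lemma EE_one (hg : N < Nat.card S.G) (a : S.G) (ha : a ≠ 1) : ¬ EE S a 1 := by
  intro he
  have h1 : D h a = ⊤ := by
    rw [eq_top_iff]
    intro x _
    obtain ⟨y, hy⟩ := he x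
    show S.q a x = S.zero
    rw [hy, h.qs2]
    exact q_one h y
  have h2 := card_D h hN a ha
  rw [h1, Subgroup.card_top] at h2
  omega

/-- the elements with the same values -/
def AA (h : IsQuat S) (hN : ∀ a : S.G, a ≠ 1 → {b : S.G | S.q a b = S.zero}.ncard = N) (hN1 : 1 ≤ N)
    (hg : N < Nat.card S.G) (a : S.G) (ha : a ≠ 1) : Subgroup S.G where
  carrier := {c | c = 1 ∨ EE S a c}
  one_mem' := Or.inl rfl
  mul_mem' := by
    rintro c d hc hd
    rcases hc with rfl | hc
    · rw [one_mul]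
      exact hd
    · rcases hd with rfl | hd
      · rw [mul_one]
        exact Or.inr hc
      · by_cases hcd : c = d
        · left
          rw [hcd, h.exp2]
        · right
          have hc1 : c ≠ 1 := by
            rintro rfl
            exact EE_one h hN hg a ha hc
          have hd1 : d ≠ 1 := by
            rintro rfl
            exact EE_one h hN hg a ha hd
          have h1 : EE S c d := EE_trans _ _ _ (EE_symm h hN hN1 a c ha hc1 hc) hd
          have h2 := P1 h hN c d hc1 hcd h1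
          have hne : c ≠ c * d := by
            intro e
            apply hd1
            have : c * 1 = c * d := by rw [mul_one]; exact e
            exact (mul_left_cancel this).symm
          have h3 : EE S c (c * d) := by
            apply P3 h hN hN1 c (c * d) hc1 hne
            rw [inf_mul h c d]
            exact h2
          exact EE_trans _ _ _ hc h3
  inv_mem' := by
    intro x hx
    have : x⁻¹ = x := by
      rw [inv_eq_iff_mul_eq_one]
      exact h.exp2 x
    rw [this]
    exact hx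

include h hN in
/-- the count (i) -/
lemma count (hN1 : 1 ≤ N) [Fintype S.G] (a : S.G) (ha : a ≠ 1) :
    ∑ c ∈ Finset.univ.filter (fun c : S.G => c ≠ 1 ∧ c ≠ a), Nat.card (D h a ⊓ D h c : Subgroup S.G) + 3 * N =
      Nat.card S.G + N * N := by
  obtain ⟨V, hV⟩ : ∃ V : Finset S.G, V = Finset.univ.filter (fun y : S.G => S.q a y = S.zero) := ⟨_, rfl⟩
  have hcard : ∀ y : S.G, y ≠ 1 → (Finset.univ.filter (fun c : S.G => S.q y c = S.zero)).card = N := by
    intro y hy
    rw [← hN y hy, Set.ncard_eq_toFinset_card']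
    congr 1
    ext c
    simp
  have hW : ∀ c, Nat.card (D h a ⊓ D h c : Subgroup S.G) = ∑ y ∈ V, if S.q y c = S.zero then 1 else 0 := by
    intro c
    rw [← Finset.card_filter, hV, Finset.filter_filter, Nat.card_eq_fintype_card]
    refine Fintype.card_of_subtype _ fun y => ?_
    rw [Finset.mem_filter]
    constructor
    · rintro ⟨-, h1, h2⟩
      refine Subgroup.mem_inf.2 ⟨h1, ?_⟩
      show S.q c y = S.zero
      rw [h.qs2]
      exact h2
    · intro hy
      obtain ⟨h1, h2⟩ := Subgroup.mem_inf.1 hy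
      have h2' : S.q c y = S.zero := h2
      rw [h.qs2] at h2'
      exact ⟨Finset.mem_univ y, h1, h2'⟩
  have htot : ∑ c : S.G, Nat.card (D h a ⊓ D h c : Subgroup S.G) + N = Nat.card S.G + N * N := by
    rw [Finset.sum_congr rfl fun c _ => hW c, Finset.sum_comm]
    have h1 : ∀ y ∈ V, (∑ c : S.G, if S.q y c = S.zero then 1 else 0) = if y = 1 then Nat.card S.G else N := by
      intro y _
      rw [← Finset.card_filter]
      by_cases hy : y = 1
      · rw [if_pos hy, hy, Finset.filter_true_of_mem, Finset.card_univ, Nat.card_eq_fintype_card]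
        intro c _
        rw [h.qs2]
        exact q_one h c
      · rw [if_neg hy]
        exact hcard y hy
    have h1V : (1 : S.G) ∈ V := by
      rw [hV, Finset.mem_filter]
      exact ⟨Finset.mem_univ _, q_one h a⟩
    rw [Finset.sum_congr rfl h1, ← Finset.add_sum_erase V _ h1V, if_pos rfl]
    have h2 : ∀ y ∈ V.erase 1, (if y = 1 then Nat.card S.G else N) = N := fun y hy =>
      if_neg (Finset.ne_of_mem_erase hy)
    rw [Finset.sum_congr rfl h2, Finset.sum_const, Finset.card_erase_of_mem h1V, smul_eq_mul]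
    have h3 : V.card = N := by
      rw [hV]
      exact hcard a ha
    rw [h3, add_assoc]
    congr 1
    obtain ⟨n, rfl⟩ : ∃ n, N = n + 1 := ⟨N - 1, by omega⟩
    rw [Nat.add_sub_cancel]
    ring
  rw [← Finset.sum_filter_add_sum_filter_not Finset.univ (fun c : S.G => c ≠ 1 ∧ c ≠ a)] at htot
  have hpair : Finset.univ.filter (fun c : S.G => ¬ (c ≠ 1 ∧ c ≠ a)) = {1, a} := by
    ext c
    simp only [Finset.mem_filter, Finset.mem_univ, true_and, Finset.mem_insert, Finset.mem_singleton]
    tauto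
  rw [hpair, Finset.sum_pair (Ne.symm ha)] at htot
  have hD1 : D h (1 : S.G) = ⊤ := by
    rw [eq_top_iff]
    intro x _
    show S.q 1 x = S.zero
    rw [h.qs2]
    exact q_one h x
  rw [hD1, inf_top_eq, inf_idem, card_D h hN a ha] at htot
  omega

include h hN in
lemma card_AA (hN1 : 1 ≤ N) (hg : N < Nat.card S.G) [Fintype S.G] (a : S.G) (ha : a ≠ 1) :
    (Finset.univ.filter (fun c : S.G => (c ≠ 1 ∧ c ≠ a) ∧ EE S a c)).card + 2 ≤
      Nat.card (AA h hN hN1 hg a ha) := by
  have h1 : Nat.card (AA h hN hN1 hg a ha) = (Finset.univ.filter (fun c : S.G => c = 1 ∨ EE S a c)).card := by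
    rw [Nat.card_eq_fintype_card]
    refine Fintype.card_of_subtype _ fun y => ?_
    rw [Finset.mem_filter]
    exact ⟨fun hy => hy.2, fun hy => ⟨Finset.mem_univ y, hy⟩⟩
  rw [h1]
  have h2 : insert 1 (insert a (Finset.univ.filter (fun c : S.G => (c ≠ 1 ∧ c ≠ a) ∧ EE S a c))) ⊆
      Finset.univ.filter (fun c : S.G => c = 1 ∨ EE S a c) := by
    intro c hc
    rw [Finset.mem_insert, Finset.mem_insert, Finset.mem_filter] at hc
    rw [Finset.mem_filter]
    refine ⟨Finset.mem_univ c, ?_⟩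
    rcases hc with hc | hc | hc
    · exact Or.inl hc
    · right
      rw [hc]
      exact fun x => ⟨x, rfl⟩
    · exact Or.inr hc.2.2
  refine le_trans (le_of_eq ?_) (Finset.card_le_card h2)
  rw [Finset.card_insert_of_notMem, Finset.card_insert_of_notMem]
  · rw [Finset.mem_filter]
    rintro ⟨-, ⟨-, hc⟩, -⟩
    exact hc rfl
  · rw [Finset.mem_insert, Finset.mem_filter]
    rintro (hc | ⟨-, ⟨hc, -⟩, -⟩)
    · exact ha hc.symm
    · exact hc rfl

end

theorem t_EQO : S_EQO := by
  intro S h hfin N hN hg2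
  by_contra hcon
  push Not at hcon
  have hft : Fintype S.G := Fintype.ofFinite _
  have hpos : 0 < Nat.card S.G := Nat.card_pos
  have hN1 : 1 ≤ N := by
    by_contra hc
    have : N = 0 := by omega
    rw [this] at hg2
    simp at hg2
  have hg : N < Nat.card S.G := by omega
  have hnt : Nontrivial S.G := by
    rw [← Finite.one_lt_card_iff_nontrivial]
    omega
  obtain ⟨a0, ha0⟩ := exists_ne (1 : S.G)
  obtain ⟨M, hM⟩ : N ∣ Nat.card S.G := by
    rw [← card_D h hN a0 ha0]
    exact Subgroup.card_subgroup_dvd_card _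
  have hM3 : 3 ≤ M := by
    by_contra hc
    have : M ≤ 2 := by omega
    have : N * M ≤ N * 2 := Nat.mul_le_mul_left N this
    omega
  have hMN : M ≤ N := by
    rw [hM, sq] at hg2
    exact Nat.le_of_mul_le_mul_left hg2 (by omega)
  -- the number of the elements
  have hfc : ∀ a : S.G, a ≠ 1 → (Finset.univ.filter (fun c : S.G => c ≠ 1 ∧ c ≠ a)).card + 2 = Nat.card S.G := by
    intro a ha
    have h1 := Finset.card_filter_add_card_filter_not (s := (Finset.univ : Finset S.G)) (fun c : S.G => c ≠ 1 ∧ c ≠ a)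
    have hpair : Finset.univ.filter (fun c : S.G => ¬ (c ≠ 1 ∧ c ≠ a)) = {1, a} := by
      ext c
      simp only [Finset.mem_filter, Finset.mem_univ, true_and, Finset.mem_insert, Finset.mem_singleton]
      tauto
    rw [hpair, Finset.card_pair (Ne.symm ha), Finset.card_univ] at h1
    rw [Nat.card_eq_fintype_card]
    exact h1
  -- (iii)
  have key : ∀ a : S.G, ∀ ha : a ≠ 1, N < Nat.card (AA h hN hN1 hg a ha) := by
    intro a ha
    obtain ⟨e, he⟩ : ∃ e, e = (Finset.univ.filter (fun c : S.G => (c ≠ 1 ∧ c ≠ a) ∧ EE S a c)).card := ⟨_, rfl⟩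
    obtain ⟨e', he'⟩ : ∃ e', e' = (Finset.univ.filter (fun c : S.G => (c ≠ 1 ∧ c ≠ a) ∧ ¬ EE S a c)).card := ⟨_, rfl⟩
    have hee : e + e' + 2 = Nat.card S.G := by
      have h0 := Finset.card_filter_add_card_filter_not
        (s := Finset.univ.filter (fun c : S.G => c ≠ 1 ∧ c ≠ a)) (fun c => EE S a c)
      rw [Finset.filter_filter, Finset.filter_filter, ← he, ← he'] at h0
      rw [← hfc a ha, h0]
    have hs := count h hN hN1 a ha
    have h2 : (N * N) * e + 2 * (N * N) * e' ≤ Nat.card S.G *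
        ∑ c ∈ Finset.univ.filter (fun c : S.G => c ≠ 1 ∧ c ≠ a), Nat.card (D h a ⊓ D h c : Subgroup S.G) := by
      rw [← Finset.sum_filter_add_sum_filter_not _ (fun c => EE S a c), mul_add, Finset.mul_sum, Finset.mul_sum,
        Finset.filter_filter, Finset.filter_filter, he, he']
      refine add_le_add ?_ ?_
      · rw [mul_comm (N * N), ← smul_eq_mul, ← Finset.sum_const]
        refine Finset.sum_le_sum fun c hc => ?_
        have hc' := (Finset.mem_filter.1 hc).2
        exact le_of_eq (P1 h hN a c ha (Ne.symm hc'.1.2) hc'.2).symm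
      · rw [mul_comm (2 * (N * N)), ← smul_eq_mul, ← Finset.sum_const]
        refine Finset.sum_le_sum fun c hc => ?_
        have hc' := (Finset.mem_filter.1 hc).2
        exact P2 h hN a c ha (Ne.symm hc'.1.2) hc'.2
    refine lt_of_lt_of_le ?_ (card_AA h hN hN1 hg a ha)
    rw [← he]
    obtain ⟨W, hW⟩ : ∃ W, W = ∑ c ∈ Finset.univ.filter (fun c : S.G => c ≠ 1 ∧ c ≠ a),
      Nat.card (D h a ⊓ D h c : Subgroup S.G) := ⟨_, rfl⟩
    rw [← hW] at hs h2
    rw [hM] at hs h2 hee
    have hNz : (1 : ℤ) ≤ N := by exact_mod_cast hN1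
    have hMz : (3 : ℤ) ≤ M := by exact_mod_cast hM3
    have hMNz : (M : ℤ) ≤ N := by exact_mod_cast hMN
    have hsz : (W : ℤ) = N * M + N * N - 3 * N := by
      have : ((W + 3 * N : ℕ) : ℤ) = ((N * M + N * N : ℕ) : ℤ) := by rw [hs]
      push_cast at this
      linarith
    have h2z : ((N : ℤ) * N) * e + 2 * (N * N) * e' ≤ N * M * W := by exact_mod_cast h2
    have heez : (e' : ℤ) = N * M - 2 - e := by
      have : ((e + e' + 2 : ℕ) : ℤ) = ((N * M : ℕ) : ℤ) := by rw [hee]
      push_cast at this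
      linarith
    rw [hsz, heez] at h2z
    have h3 : ((N : ℤ) * N) * (e + 2 * (N * M - 2 - e)) ≤ (N * N) * (M * (M + N - 3)) := by
      nlinarith
    have h4 : (e : ℤ) + 2 * (N * M - 2 - e) ≤ M * (M + N - 3) :=
      le_of_mul_le_mul_left h3 (by positivity)
    have h5 : 0 ≤ ((M : ℤ) - 3) * (N - M) := mul_nonneg (by linarith) (by linarith)
    have h6 : (N : ℤ) < e + 2 := by nlinarith
    exact_mod_cast h6
  -- all the values are the same
  have hall : ∀ a c : S.G, a ≠ 1 → c ≠ 1 → EE S a c := by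
    intro a c ha hc
    have hne : AA h hN hN1 hg a ha ⊓ AA h hN hN1 hg c hc ≠ ⊥ := by
      intro hbot
      have h1 := card_sup_inf (AA h hN hN1 hg a ha) (AA h hN hN1 hg c hc)
      rw [hbot, Subgroup.card_bot, mul_one] at h1
      have h2 : Nat.card (AA h hN hN1 hg a ha ⊔ AA h hN hN1 hg c hc : Subgroup S.G) ≤ Nat.card S.G :=
        Subgroup.card_le_card_group _
      have h3 := key a ha
      have h4 := key c hc
      nlinarith
    obtain ⟨⟨x, hx⟩, hx0⟩ := Subgroup.ne_bot_iff_exists_ne_one.1 hne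
    have hx1 : x ≠ 1 := fun e => hx0 (Subtype.ext e)
    obtain ⟨h1, h2⟩ := Subgroup.mem_inf.1 hx
    have h1' : EE S a x := by
      rcases h1 with h1 | h1
      · exact absurd h1 hx1
      · exact h1
    have h2' : EE S c x := by
      rcases h2 with h2 | h2
      · exact absurd h2 hx1
      · exact h2
    exact EE_trans _ _ _ h1' (EE_symm h hN hN1 c x hc hx1 h2')
  -- (iv)
  have hs := count h hN hN1 a0 ha0
  have h2 : Nat.card S.G * ∑ c ∈ Finset.univ.filter (fun c : S.G => c ≠ 1 ∧ c ≠ a0),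
      Nat.card (D h a0 ⊓ D h c : Subgroup S.G) =
      (Finset.univ.filter (fun c : S.G => c ≠ 1 ∧ c ≠ a0)).card * (N * N) := by
    rw [Finset.mul_sum, ← smul_eq_mul, ← Finset.sum_const]
    refine Finset.sum_congr rfl fun c hc => ?_
    have hc' := (Finset.mem_filter.1 hc).2
    exact P1 h hN a0 c ha0 (Ne.symm hc'.2) (hall a0 c ha0 hc'.1)
  have h3 := hfc a0 ha0
  obtain ⟨W, hW⟩ : ∃ W, W = ∑ c ∈ Finset.univ.filter (fun c : S.G => c ≠ 1 ∧ c ≠ a0),
    Nat.card (D h a0 ⊓ D h c : Subgroup S.G) := ⟨_, rfl⟩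
  obtain ⟨e, he⟩ : ∃ e, e = (Finset.univ.filter (fun c : S.G => c ≠ 1 ∧ c ≠ a0)).card := ⟨_, rfl⟩
  rw [← hW] at hs h2
  rw [← he] at h2 h3
  rw [hM] at hs h2 h3
  have hNz : (1 : ℤ) ≤ N := by exact_mod_cast hN1
  have hMz : (3 : ℤ) ≤ M := by exact_mod_cast hM3
  have hsz : (W : ℤ) = N * M + N * N - 3 * N := by
    have : ((W + 3 * N : ℕ) : ℤ) = ((N * M + N * N : ℕ) : ℤ) := by rw [hs]
    push_cast at this
    linarith
  have hez : (e : ℤ) = N * M - 2 := by
    have : ((e + 2 : ℕ) : ℤ) = ((N * M : ℕ) : ℤ) := by rw [h3]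
    push_cast at this
    linarith
  have h2z : (N : ℤ) * M * W = e * (N * N) := by exact_mod_cast h2
  rw [hsz, hez] at h2z
  have h5 : ((N : ℤ) * N) * (((M : ℤ) - 1) * (M - 2)) = 0 := by linear_combination h2z
  rcases mul_eq_zero.1 h5 with h6 | h6
  · nlinarith
  · nlinarith

end Pool.Agent.L0h41.HS
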